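import Pool.Agent.Y237.Rog.Plane
import Pool.Agent.Results.MP_6b55e5_an.RogersQ2

set_option autoImplicit false

/-!
# A Besicovitch set that cannot be covered by strips of small total width

Let `T` be the union of the circles about the origin whose squared radius lies in the middle thirds
Cantor set.  Its `n`-th stage has area `π (2 / 3) ^ n`, so `T` is null.  A line at distance `d` from
the origin meets the `n`-th stage in length at most `8 (2 / 3) ^ n`, uniformly in `d`, because the
Cantor set has dimension larger than `1 / 2`.  So a strip of width `w` carries at most the part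
`8 w / π` of the `n`-th stage, and a countable family of strips covering `T` has total width at
least `π / 16`.  The union of `T` with a Besicovitch set is a Besicovitch set.
-/

namespace Pool.Agent.Results.MP_6b55e5_an.RogersQ1

open MeasureTheory

/-- The Euclidean plane. -/
abbrev Plane : Type := EuclideanSpace ℝ (Fin 2)

/-- `S` is a closed strip of width `w > 0`: the closed set between the two parallel lines
`⟪u, x⟫ = c` and `⟪u, x⟫ = c + w`, where `u` is a unit vector. -/
def IsStrip (S : Set Plane) (w : ℝ) : Prop :=
  0 < w ∧ ∃ (u : Plane) (c : ℝ), ‖u‖ = 1 ∧ S = {x | c ≤ inner ℝ u x ∧ inner ℝ u x ≤ c + w}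

/-- A Besicovitch set: bounded, Lebesgue null, with a closed unit segment in every direction. -/
def IsBesicovitch (E : Set Plane) : Prop :=
  Bornology.IsBounded E ∧ volume E = 0 ∧
    ∀ e : Plane, ‖e‖ = 1 → ∃ x : Plane, segment ℝ x (x + e) ⊆ E

/-- There is a Besicovitch set all of whose coverings by finitely or countably many closed strips
have total width at least `π / 16`. -/
theorem result : ∃ E : Set Plane, IsBesicovitch E ∧
    ∀ (ι : Type) [Countable ι] (S : ι → Set Plane) (w : ι → ℝ),
      (∀ i, IsStrip (S i) (w i)) → E ⊆ ⋃ i, S i → Summable w → Real.pi / 16 ≤ ∑' i, w i := by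
  obtain ⟨E₀, ⟨h1, h2, h3⟩, -⟩ := RogersQ2.result
  refine ⟨E₀ ∪ Y237.Rog.T, ⟨h1.union Y237.Rog.T_bounded,
    measure_union_null h2 Y237.Rog.T_null, fun e he => ?_⟩, ?_⟩
  · obtain ⟨x, hx⟩ := h3 e he
    exact ⟨x, hx.trans Set.subset_union_left⟩
  · intro ι _ S w hS hcov hs
    choose hw u c hu hSi using hS
    refine Y237.Rog.T_cover u hu c w hw ?_ hs
    intro x hx
    obtain ⟨i, hi⟩ := Set.mem_iUnion.1 (hcov (Or.inr hx))
    exact Set.mem_iUnion.2 ⟨i, by rw [hSi i] at hi; exact hi⟩

end Pool.Agent.Results.MP_6b55e5_an.RogersQ1
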